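import Pool.Agent.H816R2.S35Mul4
import Pool.Agent.H816R2.S35Cyc

/-!
A Steiner system `S(3,5,362)` invariant under `x ↦ x + 1` and `x ↦ 21 * x` modulo `362`.
-/

namespace Pool.Agent.V7H59.S35

open Pool.Agent.H816R2.S35

def cl362 : List (ℕ × List (List ℕ)) :=
  ([(36, [0, 182, 4, 126, 320]),
    (60, [0, 181, 182, 48, 132]),
    (90, [0, 182, 2, 221, 143]),
    (180, [0, 182, 184, 8, 129]),
    (180, [0, 182, 3, 212, 78]),
    (180, [0, 182, 188, 67, 154]),
    (180, [0, 182, 192, 14, 141]),
    (180, [0, 182, 190, 29, 334]),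
    (180, [0, 182, 187, 268, 161]),
    (180, [0, 182, 9, 232, 119]),
    (180, [0, 182, 185, 239, 280]),
    (180, [0, 182, 5, 289, 303]),
    (180, [0, 182, 183, 209, 327]),
    (180, [0, 182, 186, 51, 243])] : List (ℕ × List ℕ)).map fun c => pointed 362 c.1 c.2

theorem ex362 : ∃ 𝓑 : Set (Finset (Fin (361 + 1))), IsS35 (Fin (361 + 1)) 𝓑 := by
  have h := of_cyc 362 21 180 (by norm_num) (by decide +kernel) cl362 (by decide +kernel)
    (by decide +kernel) (by decide +kernel) (by decide +kernel) [1, 2, 181]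
    (by decide +kernel) (by decide +kernel) (by decide +kernel)
  exact transport (ZMod.finEquiv 362).symm.toEquiv h

end Pool.Agent.V7H59.S35
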