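import Pool.Agent.H816R2.S35Mul4
import Pool.Agent.H816R2.S35Cyc

/-!
A Steiner system `S(3,5,386)` invariant under `x ↦ x + 1` and `x ↦ 5 * x` modulo `386`.
-/

namespace Pool.Agent.V7H59.S35

open Pool.Agent.H816R2.S35

def cl386 : List (ℕ × List (List ℕ)) :=
  ([(64, [0, 193, 194, 84, 108]),
    (96, [0, 194, 2, 205, 183]),
    (192, [0, 194, 5, 200, 341]),
    (192, [0, 194, 8, 112, 314]),
    (192, [0, 194, 9, 296, 143]),
    (192, [0, 194, 203, 255, 68]),
    (192, [0, 194, 12, 25, 153]),
    (192, [0, 194, 209, 273, 132]),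
    (192, [0, 194, 17, 259, 171]),
    (192, [0, 194, 195, 201, 91]),
    (192, [0, 194, 196, 206, 382]),
    (192, [0, 194, 3, 74, 295]),
    (192, [0, 194, 4, 287, 113]),
    (192, [0, 194, 197, 39, 252])] : List (ℕ × List ℕ)).map fun c => pointed 386 c.1 c.2

theorem ex386 : ∃ 𝓑 : Set (Finset (Fin (385 + 1))), IsS35 (Fin (385 + 1)) 𝓑 := by
  have h := of_cyc 386 5 192 (by norm_num) (by decide +kernel) cl386 (by decide +kernel)
    (by decide +kernel) (by decide +kernel) (by decide +kernel) [1, 2, 193]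
    (by decide +kernel) (by decide +kernel) (by decide +kernel)
  exact transport (ZMod.finEquiv 386).symm.toEquiv h

end Pool.Agent.V7H59.S35
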